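import Pool.Agent.Lib.MP_12a5fd_co.HubDeg

/-! Forests bundled into slots. -/

set_option autoImplicit false

namespace Pool.Agent.Lib.MP_12a5fd_co.BB

open Finset Pool.Agent.Lib.MP_2b1ae8_co.AT

/-- disjoint copies of forests lie in a spanning tree of a complete bipartite graph -/
theorem exists_tree {J : Type} {V : J → Type} (T : (j : J) → SimpleGraph (V j))
    (hT : ∀ j, (T j).IsAcyclic) (r N : ℕ) (hr : 1 ≤ r) (hN : r < N) (P : J → Prop)
    (e : (j : J) → P j → V j → Fin N)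
    (he : ∀ j hj y j' hj' y', e j hj y = e j' hj' y' → (⟨j, y⟩ : Σ j, V j) = ⟨j', y'⟩)
    (hs : ∀ j hj y z, (T j).Adj y z → ((e j hj y : ℕ) < r ↔ ¬ (e j hj z : ℕ) < r)) :
    ∃ G : SimpleGraph (Fin N), G.IsTree ∧ (∀ u w, G.Adj u w → ((u : ℕ) < r ↔ ¬ (w : ℕ) < r)) ∧
      ∀ j hj y z, (T j).Adj y z → G.Adj (e j hj y) (e j hj z) := by
  let K : SimpleGraph (Fin N) :=
    { Adj := fun u w => ((u : ℕ) < r ↔ ¬ (w : ℕ) < r)
      symm := ⟨fun u w h => by tauto⟩
      loopless := ⟨fun u h => by tauto⟩ }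
  let H : SimpleGraph (Fin N) :=
    { Adj := fun u w => ∃ j hj y z, (T j).Adj y z ∧ u = e j hj y ∧ w = e j hj z
      symm := ⟨fun u w ⟨j, hj, y, z, h1, h2, h3⟩ => ⟨j, hj, z, y, h1.symm, h3, h2⟩⟩
      loopless := ⟨fun u ⟨j, hj, y, z, h1, h2, h3⟩ => by
        have := hs j hj y z h1
        rw [← h2, ← h3] at this
        tauto⟩ }
  have hK : K.Connected := by
    have h0 : K.Adj ⟨0, by omega⟩ ⟨r, hN⟩ := by
      change (0 < r ↔ ¬ r < r)
      omega
    refine (SimpleGraph.connected_iff_exists_forall_reachable _).2 ⟨⟨0, by omega⟩, fun w => ?_⟩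
    by_cases hw : (w : ℕ) < r
    · refine h0.reachable.trans (SimpleGraph.Adj.reachable ?_)
      change (r < r ↔ ¬ (w : ℕ) < r)
      omega
    · refine SimpleGraph.Adj.reachable ?_
      change (0 < r ↔ ¬ (w : ℕ) < r)
      omega
  have hH : H.IsAcyclic := by
    rw [SimpleGraph.isAcyclic_iff_forall_adj_isBridge]
    rintro _ _ ⟨j, hj, y, z, h1, rfl, rfl⟩ h
    refine SimpleGraph.isAcyclic_iff_forall_adj_isBridge.1 (hT j) h1 ?_
    have key : ∀ w, (H.deleteEdges {s(e j hj y, e j hj z)}).Reachable (e j hj y) w →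
        ∃ x, w = e j hj x ∧ ((T j).deleteEdges {s(y, z)}).Reachable y x := fun w hw => by
      rw [SimpleGraph.reachable_iff_reflTransGen] at hw
      induction hw with
      | refl => exact ⟨y, rfl, .refl _⟩
      | tail _ h2 ih =>
        obtain ⟨x, rfl, h3⟩ := ih
        rw [SimpleGraph.deleteEdges_adj] at h2
        obtain ⟨⟨j', hj', x', z', h4, h5, rfl⟩, h6⟩ := h2
        obtain ⟨rfl, h7⟩ := Sigma.mk.inj (he _ _ _ _ _ _ h5)
        obtain rfl := eq_of_heq h7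
        refine ⟨z', rfl, h3.trans (SimpleGraph.Adj.reachable ?_)⟩
        rw [SimpleGraph.deleteEdges_adj]
        refine ⟨h4, fun h8 => h6 ?_⟩
        have := congrArg (Sym2.map (e j hj)) (Set.mem_singleton_iff.1 h8)
        simpa using this
    obtain ⟨x, h2, h3⟩ := key _ h
    obtain ⟨-, h7⟩ := Sigma.mk.inj (he _ _ _ _ _ _ h2)
    obtain rfl := eq_of_heq h7
    exact h3
  obtain ⟨G, h1, h2, h3⟩ := hK.exists_isTree_le_of_le_of_isAcyclic (H := H)
    (by rintro _ _ ⟨j, hj, y, z, h1, rfl, rfl⟩; exact hs j hj y z h1) hH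
  exact ⟨G, h3, fun u w h => h2 h, fun j hj y z h => h1 ⟨j, hj, y, z, h, rfl, rfl⟩⟩

theorem bundle (ε : ℝ) (hε : 0 < ε) : ∃ k0 : ℕ, ∀ k a b : ℕ, k0 ≤ k →
    (1 + ε) * k / 2 ≤ a → (1 + ε) * k ≤ b →
    ∀ (I : Type) [Fintype I] [DecidableEq I] (rk ra cb : I → ℕ), Function.Injective rk →
      (∀ x, ra x + cb x + rk x ≤ k) → (∀ x, 1 ≤ ra x) → (∀ x, ra x ≤ cb x) →
      ∀ α : I → ℝ, (∀ x, 0 ≤ α x) → (∀ x, (cb x : ℝ) ≤ α x * (ra x + cb x) + 1) →
      ∀ π : I → I, (∀ x, π (π x) = x) → (∀ x, π x ≠ x) → (∀ x, α x + α (π x) ≤ 1) →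
      ∀ (J : Type) [Fintype J] [DecidableEq J] (n : J → ℕ) (T : (j : J) → SimpleGraph (Fin (n j))),
        (∀ j, (T j).IsAcyclic) → ∀ A : (j : J) → Finset (Fin (n j)),
        (∀ j x y, (T j).Adj x y → (x ∈ A j ↔ y ∉ A j)) → ∀ bin : J → I,
        (∀ x, ∑ j with bin j = x, #(A j) ≤ ra x) →
        (∀ x, ∑ j with bin j = x, (n j - #(A j)) ≤ cb x) →
        ∃ f : (j : J) → Fin (n j) → Fin a ⊕ Fin b, (∀ j, Function.Injective (f j)) ∧
          (∀ j x, (f j x).isLeft = decide (x ∈ A j)) ∧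
          ∀ i j x y z t, (T i).Adj x y → (T j).Adj z t → s(f i x, f i y) = s(f j z, f j t) →
            i = j := by
  classical
  obtain ⟨k0, h0⟩ := pack2B ε hε
  refine ⟨k0, fun k a b hk ha hb I _ _ rk ra cb hrk hsz hra hrc α hα0 hα π hπ hfix hp J _ _ n T hT
    A hA bin h1 h2 => ?_⟩
  obtain ⟨g, g1, g2⟩ := fib_inj (β := ℕ) (univ : Finset (Σ j, Fin (n j)))
    (fun v => (bin v.1, decide (v.2 ∈ A v.1)))
    (fun q => if q.2 = true then range (ra q.1) else Ico (ra q.1) (ra q.1 + cb q.1)) (by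
      rintro ⟨x, s⟩
      have e1 : ({v ∈ (univ : Finset (Σ j, Fin (n j))) |
          (bin v.1, decide (v.2 ∈ A v.1)) = (x, s)} : Finset _) =
          ({j | bin j = x} : Finset J).sigma fun j => if s = true then A j else (A j)ᶜ := by
        ext ⟨j, y⟩
        cases s <;> simp
      rw [e1, card_sigma]
      cases s
      · simpa [card_compl] using h2 x
      · simpa using h1 x)
  have g3 : ∀ j y, (y ∈ A j → g ⟨j, y⟩ < ra (bin j)) ∧
      (y ∉ A j → ra (bin j) ≤ g ⟨j, y⟩ ∧ g ⟨j, y⟩ < ra (bin j) + cb (bin j)) := fun j y =>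
    ⟨fun h => by simpa [h] using g1 ⟨j, y⟩ (mem_univ _),
      fun h => by simpa [h] using g1 ⟨j, y⟩ (mem_univ _)⟩
  have g4 : ∀ j y, g ⟨j, y⟩ < ra (bin j) ↔ y ∈ A j := fun j y =>
    ⟨fun h => by_contra fun h' => absurd h (not_lt.2 ((g3 j y).2 h').1), (g3 j y).1⟩
  have g5 : ∀ x j, bin j = x → ∀ y, g ⟨j, y⟩ < ra x + cb x := by
    rintro x j rfl y
    by_cases h : y ∈ A j
    · have := (g3 j y).1 h
      omega
    · exact ((g3 j y).2 h).2
  let e : (x : I) → (j : J) → bin j = x → Fin (n j) → Fin (ra x + cb x) := fun x j hj y =>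
    ⟨g ⟨j, y⟩, g5 x j hj y⟩
  have he : ∀ x j hj y j' hj' y', e x j hj y = e x j' hj' y' →
      (⟨j, y⟩ : Σ j, Fin (n j)) = ⟨j', y'⟩ := fun x j hj y j' hj' y' h => by
    have h3 : g ⟨j, y⟩ = g ⟨j', y'⟩ := congrArg Fin.val h
    refine g2 _ (mem_univ _) _ (mem_univ _) (Prod.ext (hj.trans hj'.symm) ?_) h3
    simp only [← g4, h3, hj, hj']
  choose G G1 G2 G3 using fun x => exists_tree T hT (ra x) (ra x + cb x) (hra x)
    (by have := hra x; have := hrc x; omega) (fun j => bin j = x) (e x) (he x) (by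
      rintro j rfl y z h
      simpa only [e, g4] using hA j y z h)
  have hc : ∀ x, #({u | (u : ℕ) < ra x} : Finset (Fin (ra x + cb x))) = ra x := fun x => by
    rw [Fin.card_filter_val_lt]
    omega
  obtain ⟨f, f1, f2, f3⟩ := h0 k a b hk ha hb I (fun x => ra x + cb x) rk hrk hsz G G1
    (fun x => {u | (u : ℕ) < ra x}) (fun x u w h => by simpa using G2 x u w h)
    (fun x => by rw [hc]; have := hrc x; omega) α hα0
    (fun x => by
      rw [card_compl, hc, Fintype.card_fin, Nat.add_sub_cancel_left, Nat.cast_add]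
      exact hα x) π hπ (fun i j h => absurd h (hfix i)) fun i _ => hp i
  refine ⟨fun j y => f (bin j) (e _ j rfl y), fun j y z h => ?_, fun j y => ?_,
    fun i j x y z t h3 h4 h => ?_⟩
  · exact eq_of_heq (Sigma.mk.inj (he _ j rfl y j rfl z (f1 _ h))).2
  · rw [f2]
    simp [e, g4]
  · have h5 := f3 _ _ _ _ _ _ (G3 _ i rfl x y h3) (G3 _ j rfl z t h4) h
    have h6 : ∀ (x' : I) (hj : bin j = x') w, f x' (e x' j hj w) = f (bin j) (e _ j rfl w) := by
      rintro _ rfl w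
      rfl
    beta_reduce at h
    rw [← h6 _ h5.symm, ← h6 _ h5.symm, Sym2.eq_iff] at h
    rcases h with h | h <;> exact (Sigma.mk.inj (he _ i rfl _ j h5.symm _ (f1 _ h.1))).1

end Pool.Agent.Lib.MP_12a5fd_co.BB
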