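import Mathlib

/-! Twins by pigeonhole: points of equal type are paired, one of each pair is flipped. -/

set_option autoImplicit false

namespace Pool.Agent.Lib.MP_12a5fd_co.BB

open Finset

theorem pairUp (w D : ℕ) (τ a b : ℕ → ℕ) (S : Finset ℕ) (hS : #S ≤ 2 * w)
    (hD : ∀ x ∈ S, ∀ y ∈ S, τ x = τ y → a x + b y ≤ D) :
    ∃ (pos : ℕ → ℕ) (fl lo : ℕ → Bool),
      (∀ x ∈ S, ∀ y ∈ S, lo x = true → lo y = true → τ x = τ y → x = y) ∧
      (∀ x ∈ S, lo x = false → pos x < w) ∧
      (∀ o, ∑ x ∈ S with (lo x = false ∧ pos x = o), (if fl x then b x else a x) ≤ D) ∧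
      (∀ o, ∑ x ∈ S with (lo x = false ∧ pos x = o), (if fl x then a x else b x) ≤ D) := by
  induction w generalizing S with
  | zero =>
    obtain rfl : S = ∅ := card_eq_zero.1 (by omega)
    exact ⟨fun _ => 0, fun _ => false, fun _ => true, by simp, by simp, by simp, by simp⟩
  | succ w ih =>
    by_cases h : ∃ x ∈ S, ∃ y ∈ S, x ≠ y ∧ τ x = τ y
    · obtain ⟨x, hx, y, hy, hne, e⟩ := h
      have hm : ∀ z, z ∈ S → ¬ (z = x ∨ z = y) → z ∈ (S.erase x).erase y := fun z hz hn => by
        simp only [mem_erase]
        tauto
      have hsub : (S.erase x).erase y ⊆ S := (erase_subset _ _).trans (erase_subset _ _)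
      obtain ⟨pos, fl, lo, h1, h2, h3, h4⟩ := ih ((S.erase x).erase y)
        (by
          rw [card_erase_of_mem (mem_erase.2 ⟨hne.symm, hy⟩), card_erase_of_mem hx]
          omega)
        (fun u hu v hv => hD u (hsub hu) v (hsub hv))
      have key : ∀ g : ℕ → Bool → ℕ, g x false + g y true ≤ D →
          (∀ o, ∑ z ∈ (S.erase x).erase y with (lo z = false ∧ pos z = o), g z (fl z) ≤ D) →
          ∀ o, ∑ z ∈ S with ((if z = x ∨ z = y then false else lo z) = false ∧
            (if z = x ∨ z = y then w else pos z) = o),
            g z (if z = x then false else if z = y then true else fl z) ≤ D := by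
        intro g hg hg' o
        by_cases ho : o = w
        · refine le_trans (sum_le_sum_of_subset (t := {x, y}) fun z hz => ?_) ?_
          · obtain ⟨hz, hz1, hz2⟩ := mem_filter.1 hz
            by_contra hn
            simp only [mem_insert, mem_singleton] at hn
            rw [if_neg hn] at hz1 hz2
            have := h2 z (hm z hz hn) hz1
            omega
          · rw [sum_pair hne, if_pos rfl, if_neg hne.symm, if_pos rfl]
            exact hg
        · refine le_trans (le_of_eq ?_) (hg' o)
          refine sum_congr ?_ fun z hz => ?_
          · ext z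
            simp only [mem_filter]
            by_cases hn : z = x ∨ z = y
            · rw [if_pos hn, if_pos hn]
              refine ⟨fun hz => absurd hz.2.2.symm ho, fun hz => ?_⟩
              have := hz.1
              simp only [mem_erase] at this
              tauto
            · rw [if_neg hn, if_neg hn]
              exact ⟨fun hz => ⟨hm z hz.1 hn, hz.2⟩, fun hz => ⟨hsub hz.1, hz.2⟩⟩
          · have := (mem_filter.1 hz).1
            simp only [mem_erase] at this
            rw [if_neg this.2.1, if_neg this.1]
      refine ⟨fun z => if z = x ∨ z = y then w else pos z,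
        fun z => if z = x then false else if z = y then true else fl z,
        fun z => if z = x ∨ z = y then false else lo z, fun u hu v hv l1 l2 => ?_,
        fun u hu l1 => ?_, key (fun z c => if c then b z else a z) (by simpa using hD x hx y hy e) h3,
        key (fun z c => if c then a z else b z)
          (by simpa [add_comm] using hD y hy x hx e.symm) h4⟩
      · dsimp only at l1 l2
        by_cases n1 : u = x ∨ u = y
        · rw [if_pos n1] at l1
          exact absurd l1 (by simp)
        by_cases n2 : v = x ∨ v = y
        · rw [if_pos n2] at l2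
          exact absurd l2 (by simp)
        rw [if_neg n1] at l1
        rw [if_neg n2] at l2
        exact h1 u (hm u hu n1) v (hm v hv n2) l1 l2
      · dsimp only at l1 ⊢
        by_cases n1 : u = x ∨ u = y
        · rw [if_pos n1]
          omega
        · rw [if_neg n1] at l1 ⊢
          have := h2 u (hm u hu n1) l1
          omega
    · refine ⟨fun _ => 0, fun _ => false, fun _ => true, fun u hu v hv _ _ e => ?_, by simp,
        by simp, by simp⟩
      by_contra hne
      exact h ⟨u, hu, v, hv, hne, e⟩

end Pool.Agent.Lib.MP_12a5fd_co.BB
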