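import Pool.Agent.Lib.MP_12a5fd_co.Bundle
import Pool.Agent.Lib.MP_12a5fd_co.HubDeg

/-! Forests bundled into slots with prescribed class sizes. -/

set_option autoImplicit false

namespace Pool.Agent.Lib.MP_12a5fd_co.BB

open Finset SimpleGraph Pool.Agent.Lib.MP_12a5fd_co.Bundle

theorem pack_acyclicB (ε : ℝ) (hε : 0 < ε) : ∃ k0 : ℕ, ∀ k a b : ℕ, k0 ≤ k →
    (1 + ε) * k / 2 ≤ a → (1 + ε) * k ≤ b →
    ∀ (V J : Type) [Fintype V] [Fintype J] [DecidableEq J] (G : SimpleGraph V), G.IsAcyclic →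
    ∀ (tr : V → J) (s : V → Prop) [DecidablePred s], (∀ u v, G.Adj u v → tr u = tr v) →
      (∀ u v, G.Adj u v → (s u ↔ ¬ s v)) → ∀ rk ra cb : J → ℕ, Function.Injective rk →
      (∀ j, #{v | tr v = j ∧ s v} = ra j) → (∀ j, #{v | tr v = j ∧ ¬ s v} = cb j) →
      (∀ j, ra j + cb j + rk j ≤ k) → (∀ j, 1 ≤ ra j) → (∀ j, ra j ≤ cb j) →
      ∀ α : J → ℝ, (∀ j, 0 ≤ α j) → (∀ j, (cb j : ℝ) ≤ α j * (ra j + cb j) + 1) →
      ∀ π : J → J, (∀ j, π (π j) = j) → (∀ i j, π i = i → π j = j → i = j) →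
      (∀ j, π j ≠ j → α j + α (π j) ≤ 1) →
      ∃ f : V → Fin a ⊕ Fin b, (∀ u v, tr u = tr v → f u = f v → u = v) ∧
        (∀ v, (f v).isLeft = decide (s v)) ∧
        ∀ u v z t, G.Adj u v → G.Adj z t → s(f u, f v) = s(f z, f t) → tr u = tr z := by
  obtain ⟨k0, h⟩ := pack2B ε hε
  refine ⟨k0, fun k a b hk ha hb V J _ _ _ G hG tr s _ htr hs rk ra cb hrk hra hcb hn hr1 hrc α hα0
    hα π hπ hfix hp => ?_⟩
  classical
  let n : J → ℕ := fun j => #{v | tr v = j}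
  have hnj : ∀ j, n j = ra j + cb j := fun j => by
    rw [← hra, ← hcb, ← filter_filter, ← filter_filter]
    exact (card_filter_add_card_filter_not _).symm
  have h1 : ∀ j, ∃ v, tr v = j ∧ s v := fun j => by
    obtain ⟨v, hv⟩ := card_pos.1 (lt_of_lt_of_le (hr1 j) (hra j).ge)
    exact ⟨v, (mem_filter.1 hv).2⟩
  have h2 : ∀ j, ∃ v, tr v = j ∧ ¬ s v := fun j => by
    obtain ⟨v, hv⟩ := card_pos.1 (lt_of_lt_of_le ((hr1 j).trans (hrc j)) (hcb j).ge)
    exact ⟨v, (mem_filter.1 hv).2⟩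
  have e : ∀ j, Fin (n j) ≃ {v // tr v = j} := fun j =>
    (Fintype.equivFinOfCardEq (Fintype.card_subtype _)).symm
  have ex : ∀ j, ∃ T : SimpleGraph (Fin (n j)), G.comap (fun x => (e j x).1) ≤ T ∧ T.IsTree ∧
      ∀ x y, T.Adj x y → (s (e j x).1 ↔ ¬ s (e j y).1) := fun j => by
    refine ext_tree _ ?_ _ (fun x y hxy => hs _ _ hxy) ?_ ?_
    · exact IsAcyclic.comap (Hom.comap (fun x => (e j x).1) G)
        (Subtype.val_injective.comp (e j).injective) hG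
    · obtain ⟨v, hv, hv'⟩ := h1 j
      exact ⟨(e j).symm ⟨v, hv⟩, by simpa using hv'⟩
    · obtain ⟨v, hv, hv'⟩ := h2 j
      exact ⟨(e j).symm ⟨v, hv⟩, by simpa using hv'⟩
  choose T T1 T2 T3 using ex
  let A : ∀ j, Finset (Fin (n j)) := fun j => {x | s (e j x).1}
  have hAT : ∀ j x y, (T j).Adj x y → (x ∈ A j ↔ y ∉ A j) := fun j x y hxy => by
    simpa [A] using T3 j x y hxy
  have cA : ∀ j, #(A j) ≤ ra j := fun j => (card_le_card_of_injOn (fun x => (e j x).1)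
      (fun x hx => by simpa [A, (e j x).2] using hx)
      fun x _ y _ hxy => (e j).injective (Subtype.ext hxy)).trans (hra j).le
  have cB : ∀ j, #(A j)ᶜ ≤ cb j := fun j => (card_le_card_of_injOn (fun x => (e j x).1)
      (fun x hx => by simpa [A, (e j x).2] using hx)
      fun x _ y _ hxy => (e j).injective (Subtype.ext hxy)).trans (hcb j).le
  obtain ⟨g, g1, g2, g3⟩ := h k a b hk ha hb J n rk hrk (fun j => hnj j ▸ hn j) T T2 A hAT
    (fun j => by
      have := cA j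
      have := hrc j
      have := hnj j
      omega)
    α hα0 (fun j => by
      have e1 : (n j : ℝ) = ra j + cb j := by exact_mod_cast hnj j
      rw [e1]
      exact (Nat.cast_le.2 (cB j)).trans (hα j))
    π hπ hfix hp
  let f : V → Fin a ⊕ Fin b := fun v => g (tr v) ((e (tr v)).symm ⟨v, rfl⟩)
  have hf : ∀ j v (hv : tr v = j), f v = g j ((e j).symm ⟨v, hv⟩) := by
    rintro j v rfl
    rfl
  have adj : ∀ j u v (hu : tr u = j) (hv : tr v = j), G.Adj u v →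
      (T j).Adj ((e j).symm ⟨u, hu⟩) ((e j).symm ⟨v, hv⟩) := fun j u v hu hv huv =>
    T1 j (by simpa using huv)
  refine ⟨f, fun u v huv hf' => ?_, fun v => ?_, fun u v z t h1 h2 he => ?_⟩
  · rw [hf (tr v) u huv, hf (tr v) v rfl] at hf'
    exact congrArg Subtype.val ((e _).symm.injective (g1 _ hf'))
  · rw [hf _ v rfl, g2]
    simp [A]
  · rw [hf (tr u) u rfl, hf (tr u) v (htr u v h1).symm, hf (tr z) z rfl,
      hf (tr z) t (htr z t h2).symm] at he
    exact g3 _ _ _ _ _ _ (adj _ _ _ _ _ h1) (adj _ _ _ _ _ h2) he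

lemma cntR {I J : Type} [Fintype I] [Fintype J] [DecidableEq J] (n : I → ℕ) (β : I → J)
    (A : ∀ i, Finset (Fin (n i))) (p q : J → ℕ) (j : J) :
    #{v : (Σ i, Fin (n i)) ⊕ (Σ j, Fin (p j) ⊕ Fin (q j)) |
      Sum.elim (fun x => β x.1) Sigma.fst v = j ∧
      Sum.elim (fun x => decide (x.2 ∈ A x.1)) (fun x => x.2.isLeft) v = true} =
      ∑ i with β i = j, #(A i) + p j := by
  rw [card_filter, Fintype.sum_sum_type, Fintype.sum_sigma, Fintype.sum_sigma, sum_filter]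
  congr 1
  · refine sum_congr rfl fun i _ => ?_
    by_cases h : β i = j <;> simp [h]
  · rw [sum_eq_single j (fun i _ h => by simp [h]) (by simp), Fintype.sum_sum_type]
    simp

lemma cntC {I J : Type} [Fintype I] [Fintype J] [DecidableEq J] (n : I → ℕ) (β : I → J)
    (A : ∀ i, Finset (Fin (n i))) (p q : J → ℕ) (j : J) :
    #{v : (Σ i, Fin (n i)) ⊕ (Σ j, Fin (p j) ⊕ Fin (q j)) |
      Sum.elim (fun x => β x.1) Sigma.fst v = j ∧
      ¬ Sum.elim (fun x => decide (x.2 ∈ A x.1)) (fun x => x.2.isLeft) v = true} =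
      ∑ i with β i = j, (n i - #(A i)) + q j := by
  rw [card_filter, Fintype.sum_sum_type, Fintype.sum_sigma, Fintype.sum_sigma, sum_filter]
  congr 1
  · refine sum_congr rfl fun i _ => ?_
    by_cases h : β i = j
    · have := card_compl (A i)
      rw [Fintype.card_fin] at this
      rw [if_pos h, ← this, ← card_filter]
      congr 1
      ext x
      simp [h]
    · simp [h]
  · rw [sum_eq_single j (fun i _ h => by simp [h]) (by simp), Fintype.sum_sum_type]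
    simp

theorem bundle1 (ε : ℝ) (hε : 0 < ε) : ∃ k0 : ℕ, ∀ k a b : ℕ, k0 ≤ k →
    (1 + ε) * k / 2 ≤ a → (1 + ε) * k ≤ b →
    ∀ (J : Type) [Fintype J] [DecidableEq J] (rk ra cb : J → ℕ), Function.Injective rk →
      (∀ x, ra x + cb x + rk x ≤ k) → (∀ x, 1 ≤ ra x) → (∀ x, ra x ≤ cb x) →
      ∀ α : J → ℝ, (∀ x, 0 ≤ α x) → (∀ x, (cb x : ℝ) ≤ α x * (ra x + cb x) + 1) →
      ∀ π : J → J, (∀ x, π (π x) = x) → (∀ x y, π x = x → π y = y → x = y) →
      (∀ x, π x ≠ x → α x + α (π x) ≤ 1) →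
      ∀ (I : Type) [Fintype I] (n : I → ℕ) (T : (i : I) → SimpleGraph (Fin (n i))),
        (∀ i, (T i).IsAcyclic) → ∀ A : (i : I) → Finset (Fin (n i)),
        (∀ i x y, (T i).Adj x y → (x ∈ A i ↔ y ∉ A i)) → ∀ β : I → J,
        (∀ x, ∑ i with β i = x, #(A i) ≤ ra x) →
        (∀ x, ∑ i with β i = x, (n i - #(A i)) ≤ cb x) →
        ∃ f : ∀ i, Fin (n i) → Fin a ⊕ Fin b, (∀ i, Function.Injective (f i)) ∧
          (∀ i x y, (T i).Adj x y →
            (completeBipartiteGraph (Fin a) (Fin b)).Adj (f i x) (f i y)) ∧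
          ∀ i j, i ≠ j → ∀ x y z t, (T i).Adj x y → (T j).Adj z t →
            s(f i x, f i y) ≠ s(f j z, f j t) := by
  obtain ⟨k0, H⟩ := pack_acyclicB ε hε
  refine ⟨k0, fun k a b hk ha hb J _ _ rk ra cb hrk hn h1 h2 α hα0 hα π hπ hfix hp I _ n T hT A hA
    β hR hC => ?_⟩
  obtain ⟨f, f1, f2, f3⟩ := H k a b hk ha hb
    ((Σ i, Fin (n i)) ⊕ (Σ j, Fin (ra j - ∑ i with β i = j, #(A i)) ⊕
      Fin (cb j - ∑ i with β i = j, (n i - #(A i))))) J (uni T) (uni_acyclic T hT)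
    (Sum.elim (fun x => β x.1) Sigma.fst)
    (fun v => Sum.elim (fun x => decide (x.2 ∈ A x.1)) (fun x => x.2.isLeft) v = true)
    (by
      rintro u v ⟨i, x, y, rfl, rfl, -⟩
      rfl)
    (by
      rintro u v ⟨i, x, y, rfl, rfl, hxy⟩
      simpa using hA i x y hxy)
    rk ra cb hrk (fun j => (cntR n β A _ _ j).trans (Nat.add_sub_cancel' (hR j)))
    (fun j => (cntC n β A _ _ j).trans (Nat.add_sub_cancel' (hC j))) hn h1 h2 α hα0 hα π hπ hfix hp
  refine ⟨fun i x => f (Sum.inl ⟨i, x⟩), fun i x y e => ?_, fun i x y hxy => ?_,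
    fun i j hij x y z t h1 h2 e => ?_⟩
  · simpa using f1 (Sum.inl ⟨i, x⟩) (Sum.inl ⟨i, y⟩) rfl e
  · have e1 := f2 (Sum.inl ⟨i, x⟩)
    have e2 := f2 (Sum.inl ⟨i, y⟩)
    have e3 := hA i x y hxy
    simp only [Sum.elim_inl, decide_eq_true_eq] at e1 e2
    by_cases hy : y ∈ A i
    · have hx : x ∉ A i := fun hx => e3.1 hx hy
      rw [decide_eq_false hx] at e1
      rw [decide_eq_true hy] at e2
      exact Or.inr ⟨by simpa using e1, e2⟩
    · rw [decide_eq_true (e3.2 hy)] at e1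
      rw [decide_eq_false hy] at e2
      exact Or.inl ⟨e1, by simpa using e2⟩
  · have ht := f3 _ _ _ _ ⟨i, x, y, rfl, rfl, h1⟩ ⟨j, z, t, rfl, rfl, h2⟩ e
    rcases Sym2.eq_iff.1 e with ⟨e1, -⟩ | ⟨e1, -⟩
    · exact hij (congrArg Sigma.fst (Sum.inl.inj (f1 _ _ ht e1)))
    · exact hij (congrArg Sigma.fst (Sum.inl.inj (f1 _ (Sum.inl ⟨j, t⟩) ht e1)))

end Pool.Agent.Lib.MP_12a5fd_co.BB
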